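import Pool.Agent.H.MP_8d137a_pr.A

namespace Pool.Agent.Results.MP_8d137a_pr.Cycle

open MeasureTheory ProbabilityTheory Set Filter Topology Pool.Agent.H.MP_8d137a_pr

/-- The number of letters read when the word `A` is completed for the first time. -/
noncomputable def tau {s k : ℕ} (A : Fin k → Fin s) (x : ℕ → Fin s) : ℕ∞ :=
  ⨅ m : {m : ℕ // ∀ j : Fin k, x (m + j) = A j}, ((m + k : ℕ) : ℕ∞)

/-- The law of two independent i.i.d. sources with letter law `ν`. -/
noncomputable def two {s : ℕ} (ν : Measure (Fin s)) : Measure ((ℕ → Fin s) × (ℕ → Fin s)) :=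
  (Measure.infinitePi fun _ => ν).prod (Measure.infinitePi fun _ => ν)

/-- The probability that `A` beats `B`, ties broken by a fair coin. -/
noncomputable def win {s k : ℕ} (ν : Measure (Fin s)) (A B : Fin k → Fin s) : ℝ :=
  (two ν).real {z | tau A z.1 < tau B z.2} + (two ν).real {z | tau A z.1 = tau B z.2} / 2

/-- Events depending on the first `n` letters. -/
def Dep (n : ℕ) (E : Set (ℕ → Fin 7)) : Prop := ∀ x y, (∀ i < n, x i = y i) → x ∈ E → y ∈ E

lemma Dep.eq {n : ℕ} {E : Set (ℕ → Fin 7)} (h : Dep n E) :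
    E = (fun x (i : Finset.range n) => x i) ⁻¹' ((fun x (i : Finset.range n) => x i) '' E) :=
  (subset_preimage_image _ _).antisymm fun x ⟨y, h1, h2⟩ =>
    h y x (fun i hi => congrFun h2 ⟨i, Finset.mem_range.2 hi⟩) h1

lemma Dep.meas {n : ℕ} {E : Set (ℕ → Fin 7)} (h : Dep n E) : MeasurableSet E := by
  rw [h.eq]
  exact (by fun_prop : Measurable fun (x : ℕ → Fin 7) (i : Finset.range n) => x i) (Set.toFinite _).measurableSet

lemma Dep.inter {n : ℕ} {E : Set (ℕ → Fin 7)} (h : Dep n E) (c : Fin 7) :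
    Dep (n + 1) (E ∩ {x | x n = c}) :=
  fun x y e hx => ⟨h x y (fun i hi => e i (by omega)) hx.1, (e n (by omega)).symm.trans hx.2⟩

lemma Dep.mul {n : ℕ} {E : Set (ℕ → Fin 7)} (h : Dep n E) (ν : Measure (Fin 7)) [IsProbabilityMeasure ν]
    (c : Fin 7) : (Measure.infinitePi fun _ => ν).real (E ∩ {x | x n = c}) =
      (Measure.infinitePi fun _ => ν).real E * ν.real {c} := by
  have := (((iIndepFun_infinitePi (P := fun _ : ℕ => ν) (X := fun _ => id) fun _ =>
    measurable_id).indepFun_finset (Finset.range n) {n} (by simp) (by fun_prop)).measure_inter_preimage_eq_mul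
    ((fun x (i : Finset.range n) => x i) '' E) {f | f ⟨n, by simp⟩ = c} (Set.toFinite _).measurableSet
    (Set.toFinite _).measurableSet)
  simp only [id] at this
  rw [← h.eq] at this
  rw [measureReal_def, measureReal_def, measureReal_def, ← ENNReal.toReal_mul,
    ← (measurePreserving_eval_infinitePi (fun _ : ℕ => ν) n).measure_preimage
      (Set.toFinite {c}).measurableSet.nullMeasurableSet]
  exact congrArg _ this

/-- The word has not been completed after `n` letters. -/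
def U (a b : Fin 7) (n : ℕ) : Set (ℕ → Fin 7) :=
  {x | ∀ m, m + 3 ≤ n → ¬ (x m = a ∧ x (m + 1) = b ∧ x (m + 2) = a)}

lemma memU {a b : Fin 7} {n : ℕ} {x : ℕ → Fin 7} : x ∈ U a b n ↔ (n : ℕ∞) < tau ![a, b, a] x := by
  rw [← ENat.add_one_le_iff (by simp), tau, le_iInf_iff, Subtype.forall]
  refine forall_congr' fun m => ?_
  simp only [Fin.forall_fin_succ, IsEmpty.forall_iff, and_true]
  norm_cast
  exact ⟨fun h h1 => by by_contra h2; exact h (by omega) h1, fun h h1 h2 => by have := h h2; omega⟩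

lemma depU (a b : Fin 7) (n : ℕ) : Dep n (U a b n) := fun x y e hx m hm h =>
  hx m hm (by rwa [e m (by omega), e (m + 1) (by omega), e (m + 2) (by omega)])

lemma Uanti (a b : Fin 7) (n : ℕ) : U a b (n + 1) ⊆ U a b n := fun _ h m hm => h m (by omega)

lemma depD (a b : Fin 7) (n : ℕ) : Dep (n + 1) (U a b n \ U a b (n + 1)) := fun x y e hx =>
  ⟨depU a b n x y (fun i hi => e i (by omega)) hx.1,
    fun h => hx.2 (depU a b _ y x (fun i hi => (e i hi).symm) h)⟩

lemma memD {a b : Fin 7} {n : ℕ} {x : ℕ → Fin 7} (h : x ∈ U a b n \ U a b (n + 1)) :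
    ∃ m, m + 2 = n ∧ x m = a ∧ x (m + 1) = b ∧ x (m + 2) = a := by
  obtain ⟨h1, h2⟩ := h
  simp only [U, mem_setOf_eq, not_forall, not_not] at h2
  obtain ⟨m, h3, h4⟩ := h2
  exact ⟨m, by by_contra h5; exact h1 m (by omega) h4, h4⟩

section
variable (ν : Measure (Fin 7)) [IsProbabilityMeasure ν]

/-- Survival probabilities. -/
noncomputable def u (a b : Fin 7) (n : ℕ) : ℝ := (Measure.infinitePi fun _ => ν).real (U a b n)

lemma uD (a b : Fin 7) (n : ℕ) : (Measure.infinitePi fun _ => ν).real (U a b n \ U a b (n + 1)) =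
    u ν a b n - u ν a b (n + 1) := measureReal_sdiff (Uanti a b n) (depU _ _ _).meas

lemma urec {a b : Fin 7} (h : a ≠ b) (n : ℕ) : u ν a b (n + 3) - u ν a b (n + 2) +
    ν.real {a} * ν.real {b} * u ν a b (n + 1) +
    (ν.real {a} - 1) * (ν.real {a} * ν.real {b}) * u ν a b n = 0 := by
  have e : U a b n ∩ {x | x n = a} ∩ {x | x (n + 1) = b} ∩ {x | x (n + 2) = a} =
      (U a b n \ U a b (n + 1)) ∩ {x | x (n + 1) = b} ∩ {x | x (n + 2) = a} ∪
        U a b (n + 2) \ U a b (n + 3) := by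
    ext x
    constructor
    · rintro ⟨⟨⟨h1, h2⟩, h3⟩, h4⟩
      by_cases h5 : x ∈ U a b (n + 1)
      · refine Or.inr ⟨?_, fun h6 => h6 n le_rfl ⟨h2, h3, h4⟩⟩
        by_contra h6
        obtain ⟨m, h7, -, h8, -⟩ := memD ⟨h5, h6⟩
        exact h (h2.symm.trans (by rwa [show n = m + 1 by omega]))
      · exact Or.inl ⟨⟨⟨h1, h5⟩, h3⟩, h4⟩
    · rintro (⟨⟨h1, h2⟩, h3⟩ | h1)
      · obtain ⟨m, rfl, -, -, h4⟩ := memD h1
        exact ⟨⟨⟨h1.1, h4⟩, h2⟩, h3⟩
      · obtain ⟨m, h2, h3⟩ := memD h1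
        obtain rfl : m = n := by omega
        exact ⟨⟨⟨Uanti _ _ _ (Uanti _ _ _ h1.1), h3.1⟩, h3.2.1⟩, h3.2.2⟩
  have := congrArg (Measure.infinitePi fun _ => ν).real e
  rw [measureReal_union (disjoint_left.2 fun x h1 h2 => h1.1.1.2 (Uanti _ _ _ h2.1)) (depD _ _ _).meas,
    (((depU a b n).inter a).inter b).mul, ((depU a b n).inter a).mul, (depU a b n).mul,
    ((depD a b n).inter b).mul, (depD a b n).mul, uD, uD] at this
  unfold u at *
  linear_combination this

lemma uini (a b : Fin 7) : ∀ i ≤ 2, u ν a b i = 1 := fun i hi => by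
  rw [u, eq_univ_of_forall (s := U a b i) fun x m hm => by omega, probReal_univ]

lemma usum {a b : Fin 7} (h : a ≠ b) (ha : 0 < ν.real {a}) (hb : 0 < ν.real {b}) : Summable (u ν a b) := by
  have p : ∀ n, 0 ≤ u ν a b n := fun _ => measureReal_nonneg
  refine summable_of_sum_range_le (c := (1 + ν.real {a} * ν.real {b}) / (ν.real {a} * (ν.real {a} * ν.real {b})))
    p fun n => ?_
  have : ν.real {a} * (ν.real {a} * ν.real {b}) * ∑ i ∈ Finset.range n, u ν a b i =
      1 - u ν a b (n + 2) + ν.real {a} * ν.real {b} * (1 - u ν a b n) := by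
    induction n with
    | zero => simp [uini]
    | succ n ih => rw [Finset.sum_range_succ, mul_add, ih]; linear_combination urec ν h n
  rw [le_div_iff₀' (by positivity), this]
  nlinarith [p n, p (n + 2), mul_pos ha hb]

lemma beat {a b c d : Fin 7} (h : a ≠ b) (h' : c ≠ d) (ha : 0 < ν.real {a}) (hb : 0 < ν.real {b})
    {q r Q R : ℝ} (hq : ν.real {a} * ν.real {b} = q) (hr : (ν.real {a} - 1) * q = r)
    (hQ : ν.real {c} * ν.real {d} = Q) (hR : (ν.real {c} - 1) * Q = R) (hD : Dd q r Q R < 0)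
    (hN : Nn q r Q R < 0) : 1 / 2 < win ν ![a, b, a] ![c, d, c] := by
  subst hr hR hq hQ
  have le1 : ∀ n, u ν c d n ≤ 1 := fun _ => measureReal_le_one
  obtain ⟨T, hT, e⟩ := stein (usum ν h ha hb) (fun _ => measureReal_nonneg) (v := u ν c d)
    (fun _ => measureReal_nonneg) le1 (uini ν a b) (uini ν c d) (urec ν h) (urec ν h')
  have hT0 : 0 < T := by nlinarith
  have t0 : Tendsto (fun n => u ν a b n * u ν c d n) atTop (𝓝 0) :=
    squeeze_zero (fun _ => mul_nonneg measureReal_nonneg measureReal_nonneg)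
      (fun n => mul_le_of_le_one_right measureReal_nonneg (le1 n)) (usum ν h ha hb).tendsto_atTop_zero
  have eqt : ∀ {a b : Fin 7} {n : ℕ} {x}, x ∈ U a b n \ U a b (n + 1) → tau ![a, b, a] x = (n + 1 : ℕ) :=
    fun h => le_antisymm (not_lt.1 fun h1 => h.2 (memU.2 h1)) (Order.add_one_le_of_lt (memU.1 h.1))
  have key : ∀ (F : ℕ → Set (ℕ → Fin 7)) (S : Set ((ℕ → Fin 7) × (ℕ → Fin 7))), (∀ n, MeasurableSet (F n)) →
      (∀ n, (U a b n \ U a b (n + 1)) ×ˢ F n ⊆ S) → ∀ N, ∑ n ∈ Finset.range N,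
        (u ν a b n - u ν a b (n + 1)) * (Measure.infinitePi fun _ => ν).real (F n) ≤ (two ν).real S := by
    intro F S h1 h2 N
    simp only [← uD, ← measureReal_prod_prod]
    rw [← measureReal_biUnion_finset (fun i _ j _ hij => disjoint_left.2 fun x h3 h4 => hij (by
      have := (eqt h3.1).symm.trans (eqt h4.1)
      exact Nat.succ_injective (by exact_mod_cast this))) fun n _ => (depD _ _ _).meas.prod (h1 n)]
    exact measureReal_mono (iUnion₂_subset fun n _ => h2 n)
  have k1 := key (fun n => U c d (n + 1)) {z | tau ![a, b, a] z.1 < tau ![c, d, c] z.2}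
    (fun n => (depU _ _ _).meas) fun n z hz => (eqt hz.1).trans_lt (memU.1 hz.2)
  have k2 := key (fun n => U c d n \ U c d (n + 1)) {z | tau ![a, b, a] z.1 = tau ![c, d, c] z.2}
    (fun n => (depD _ _ _).meas) fun n z hz => (eqt hz.1).trans (eqt hz.2).symm
  simp only [uD] at k2
  refine lt_of_lt_of_le (b := (1 - 0 + T) / 2) (by linarith) (le_of_tendsto'
    (((tendsto_const_nhds.sub t0).add hT.tendsto_sum_nat).div_const 2) fun N => le_trans (le_of_eq ?_)
      (add_le_add (k1 N) (div_le_div_of_nonneg_right (k2 N) zero_le_two)))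
  induction N with
  | zero => simp [uini]
  | succ n ih =>
    simp only [Finset.sum_range_succ]
    unfold u at *
    linear_combination ih

end

theorem result (ε : ℝ) (hε : 0 < ε) : ∃ ν : Measure (Fin 7), IsProbabilityMeasure ν ∧
    (∀ i, |ν.real {i} - 1 / 7| < ε) ∧
      ∃ A B C : Fin 3 → Fin 7, 1 / 2 < win ν A B ∧ 1 / 2 < win ν B C ∧ 1 / 2 < win ν C A := by
  let p : ℝ → Fin 7 → ℝ := fun t => ![1 / 7, 1 / 7, 1 / 7 + t, qB t / (1 / 7 + t), 1 / 7 - t,
    qC t / (1 / 7 - t), 3 / 7 - qB t / (1 / 7 + t) - qC t / (1 / 7 - t)]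
  have c : ∀ i, ContinuousAt (fun t => p t i) 0 ∧ p 0 i = 1 / 7 := fun i => by
    fin_cases i <;> simp only [p, qB, qC] <;> refine ⟨?_, by norm_num⟩ <;> simp <;>
      fun_prop (disch := norm_num)
  have ev : ∀ᶠ t in 𝓝[>] (0 : ℝ), ∀ i, |p t i - 1 / 7| < min ε (1 / 7) :=
    nhdsWithin_le_nhds (eventually_all.2 fun i => ((c i).1.sub continuousAt_const).abs.eventually_lt
      continuousAt_const (by simp [(c i).2, hε]))
  obtain ⟨t, ⟨⟨⟨h0, h1⟩, h2⟩, h3⟩, h4, h5, h6⟩ := ((((ev.and nAB).and nBC).and nCA).and dd).exists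
  have pos : ∀ i, 0 < p t i := fun i => by
    have := (abs_lt.1 ((h0 i).trans_le (min_le_right _ _))).1
    linarith
  let ν : Measure (Fin 7) := ∑ i, ENNReal.ofReal (p t i) • Measure.dirac i
  have hν : ∀ i, ν.real {i} = p t i := fun i => by
    simp [ν, measureReal_def, Pi.single_apply, (pos i).le]
  haveI : IsProbabilityMeasure ν := ⟨by
    simp only [ν, Measure.coe_finsetSum, Finset.sum_apply, Measure.smul_apply, measure_univ, smul_eq_mul,
      mul_one]
    rw [← ENNReal.ofReal_sum_of_nonneg fun i _ => (pos i).le, ← ENNReal.ofReal_one]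
    congr 1
    simp [p, Fin.sum_univ_succ]
    ring⟩
  have p2 : 1 / 7 + t ≠ 0 := (pos 2).ne'
  have p4 : 1 / 7 - t ≠ 0 := (pos 4).ne'
  have q0 : ν.real {0} * ν.real {1} = 1 / 49 := by rw [hν, hν]; norm_num [p]
  have q2 : ν.real {2} * ν.real {3} = qB t := by rw [hν, hν]; exact mul_div_cancel₀ _ p2
  have q4 : ν.real {4} * ν.real {5} = qC t := by rw [hν, hν]; exact mul_div_cancel₀ _ p4
  refine ⟨ν, this, fun i => hν i ▸ (h0 i).trans_le (min_le_left _ _), ![0, 1, 0], ![2, 3, 2], ![4, 5, 4],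
    beat ν (by decide) (by decide) (hν _ ▸ pos _) (hν _ ▸ pos _) q0 (by rw [hν]; rfl) q2
      (by rw [hν]; rfl) h4 h1,
    beat ν (by decide) (by decide) (hν _ ▸ pos _) (hν _ ▸ pos _) q2 (by rw [hν]; rfl) q4
      (by rw [hν]; rfl) h5 h2,
    beat ν (by decide) (by decide) (hν _ ▸ pos _) (hν _ ▸ pos _) q4 (by rw [hν]; rfl) q0
      (by rw [hν]; rfl) h6 h3⟩

end Pool.Agent.Results.MP_8d137a_pr.Cycle
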